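import Pool.Agent.Y506.PV.Stm

/-!
# Isotropic position
-/

set_option autoImplicit false

namespace Pool.Agent.Y211.PV

open MeasureTheory Set Filter Topology
open scoped ENNReal InnerProductSpace
open Pool.Agent.W695.KH (Eu)
open Pool.Agent.Y506.RG (EW VW Adm VW_shift EW_const_mul EW_nonneg)
open Pool.Agent.Y506.PV

variable {n : ℕ} {w : Eu (Fin n) → ℝ}

theorem EW_sum {ι : Type} (s : Finset ι) (w : Eu (Fin n) → ℝ) (v : ι → Eu (Fin n) → ℝ)
    (h : ∀ i ∈ s, Integrable fun x => v i x * w x) :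
    EW w (fun x => ∑ i ∈ s, v i x) = ∑ i ∈ s, EW w (v i) := by
  unfold EW
  have h1 : ∀ x, (∑ i ∈ s, v i x) * w x = ∑ i ∈ s, v i x * w x := fun x => Finset.sum_mul _ _ _
  simp only [h1]
  rw [integral_finsetSum s h, Finset.sum_div]

theorem int_lin (h : Adm w) (θ : Eu (Fin n)) : Integrable fun x => ⟪x, θ⟫_ℝ * w x := by
  refine h.of_bd _ (by fun_prop) ‖θ‖ fun x => ?_
  have h1 := abs_real_inner_le_norm x θ
  have h2 : ‖x‖ ≤ 1 + ‖x‖ ^ 2 := by nlinarith [sq_nonneg (‖x‖ - 1)]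
  calc |⟪x, θ⟫_ℝ| ≤ ‖x‖ * ‖θ‖ := h1
    _ = ‖θ‖ * ‖x‖ := mul_comm _ _
    _ ≤ ‖θ‖ * (1 + ‖x‖ ^ 2) := mul_le_mul_of_nonneg_left h2 (norm_nonneg _)

theorem int_sq (h : Adm w) (θ : Eu (Fin n)) : Integrable fun x => ⟪x, θ⟫_ℝ ^ 2 * w x := by
  refine h.of_bd _ (by fun_prop) (‖θ‖ ^ 2) fun x => ?_
  have h1 := abs_real_inner_le_norm x θ
  rw [abs_of_nonneg (sq_nonneg _), ← sq_abs]
  calc |⟪x, θ⟫_ℝ| ^ 2 ≤ (‖x‖ * ‖θ‖) ^ 2 := pow_le_pow_left₀ (abs_nonneg _) h1 2
    _ = ‖θ‖ ^ 2 * ‖x‖ ^ 2 := by ring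
    _ ≤ ‖θ‖ ^ 2 * (1 + ‖x‖ ^ 2) := by nlinarith [sq_nonneg ‖θ‖]

/-- the variance as a second moment -/
theorem VW_eq (h : Adm w) (θ : Eu (Fin n)) : VW w (fun x => ⟪x, θ⟫_ℝ) =
    EW w (fun x => (⟪x, θ⟫_ℝ - EW w fun x => ⟪x, θ⟫_ℝ) ^ 2) := by
  rw [VW_shift h _ (int_lin h θ) (int_sq h θ)]
  ring

/-- the coordinates of the centre -/
noncomputable def mm (w : Eu (Fin n) → ℝ) (i : Fin n) : ℝ := EW w fun x => x i

/-- the covariance matrix -/
noncomputable def SS (w : Eu (Fin n) → ℝ) : Matrix (Fin n) (Fin n) ℝ := fun i j =>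
  EW w fun x => (x i - mm w i) * (x j - mm w j)

theorem abs_coord (x : Eu (Fin n)) (i : Fin n) : |x i| ≤ ‖x‖ := by
  have := PiLp.norm_apply_le x i
  rwa [Real.norm_eq_abs] at this

theorem int_coord (h : Adm w) (i : Fin n) : Integrable fun x => x i * w x := by
  refine h.of_bd _ (by fun_prop) 1 fun x => ?_
  have h1 := abs_coord x i
  nlinarith [sq_nonneg (‖x‖ - 1)]

theorem int_coord2 (h : Adm w) (i j : Fin n) :
    Integrable fun x => (x i - mm w i) * (x j - mm w j) * w x := by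
  set M : ℝ := |mm w i| + |mm w j| with hM
  refine h.of_bd _ (by fun_prop) (2 + 2 * M ^ 2) fun x => ?_
  have h1 := abs_coord x i
  have h2 := abs_coord x j
  have hi := abs_nonneg (mm w i)
  have hj := abs_nonneg (mm w j)
  have h3 : |x i - mm w i| ≤ ‖x‖ + M := by
    have := abs_sub (x i) (mm w i)
    linarith
  have h4 : |x j - mm w j| ≤ ‖x‖ + M := by
    have := abs_sub (x j) (mm w j)
    linarith
  have h5 : 0 ≤ ‖x‖ + M := (abs_nonneg _).trans h3
  rw [abs_mul]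
  calc |x i - mm w i| * |x j - mm w j| ≤ (‖x‖ + M) * (‖x‖ + M) :=
        mul_le_mul h3 h4 (abs_nonneg _) h5
    _ ≤ (2 + 2 * M ^ 2) * (1 + ‖x‖ ^ 2) := by
        nlinarith [sq_nonneg (‖x‖ - M), sq_nonneg (M * ‖x‖), sq_nonneg M, sq_nonneg ‖x‖]

theorem inner_sum (x θ : Eu (Fin n)) : ⟪x, θ⟫_ℝ = ∑ i, θ i * x i := by
  rw [PiLp.inner_apply]
  exact Finset.sum_congr rfl fun i _ => by simp [mul_comm]

theorem EW_lin (h : Adm w) (θ : Eu (Fin n)) :
    EW w (fun x => ⟪x, θ⟫_ℝ) = ∑ i, θ i * mm w i := by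
  simp only [inner_sum]
  rw [EW_sum]
  · exact Finset.sum_congr rfl fun i _ => EW_const_mul _ _ _
  · intro i _
    refine ((int_coord h i).const_mul (θ i)).congr (Eventually.of_forall fun x => ?_)
    simp only
    ring

theorem VW_mat (h : Adm w) (θ : Eu (Fin n)) : VW w (fun x => ⟪x, θ⟫_ℝ) =
    (θ : Fin n → ℝ) ⬝ᵥ ((SS w).mulVec θ) := by
  rw [VW_eq h, EW_lin h]
  have e1 : (fun x : Eu (Fin n) => (⟪x, θ⟫_ℝ - ∑ i, θ i * mm w i) ^ 2) = fun x =>
      ∑ i, ∑ j, (θ i * θ j) * ((x i - mm w i) * (x j - mm w j)) := by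
    funext x
    rw [inner_sum, ← Finset.sum_sub_distrib, sq, Finset.sum_mul_sum]
    refine Finset.sum_congr rfl fun i _ => Finset.sum_congr rfl fun j _ => ?_
    ring
  have i1 : ∀ i j, Integrable fun x =>
      (θ i * θ j) * ((x i - mm w i) * (x j - mm w j)) * w x := by
    intro i j
    refine ((int_coord2 h i j).const_mul (θ i * θ j)).congr (Eventually.of_forall fun x => ?_)
    simp only
    ring
  rw [e1, EW_sum]
  · unfold dotProduct Matrix.mulVec dotProduct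
    refine Finset.sum_congr rfl fun i _ => ?_
    rw [EW_sum _ _ _ fun j _ => i1 i j, Finset.mul_sum]
    refine Finset.sum_congr rfl fun j _ => ?_
    rw [EW_const_mul]
    unfold SS
    ring
  · intro i _
    have : (fun x : Eu (Fin n) => (∑ j, (θ i * θ j) * ((x i - mm w i) * (x j - mm w j))) * w x) =
        fun x => ∑ j, (θ i * θ j) * ((x i - mm w i) * (x j - mm w j)) * w x := by
      funext x
      rw [Finset.sum_mul]
    rw [this]
    exact integrable_finsetSum _ fun j _ => i1 i j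

/-- hyperplanes are null sets -/
theorem hyp_null (θ : Eu (Fin n)) (hθ : θ ≠ 0) (a : ℝ) :
    volume {x : Eu (Fin n) | ⟪x, θ⟫_ℝ = a} = 0 := by
  have hk : volume ((LinearMap.ker (innerSL ℝ θ).toLinearMap : Submodule ℝ (Eu (Fin n))) :
      Set (Eu (Fin n))) = 0 := by
    apply Measure.addHaar_submodule
    intro htop
    have h1 : θ ∈ LinearMap.ker (innerSL ℝ θ).toLinearMap := by
      rw [htop]
      trivial
    have h2 : ⟪θ, θ⟫_ℝ = 0 := h1
    exact hθ (inner_self_eq_zero.1 h2)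
  have h0 : ⟪θ, θ⟫_ℝ ≠ 0 := fun h => hθ (inner_self_eq_zero.1 h)
  have e1 : {x : Eu (Fin n) | ⟪x, θ⟫_ℝ = a} = (fun x => x - (a / ⟪θ, θ⟫_ℝ) • θ) ⁻¹'
      ((LinearMap.ker (innerSL ℝ θ).toLinearMap : Submodule ℝ (Eu (Fin n))) :
        Set (Eu (Fin n))) := by
    ext x
    constructor
    · intro hx
      show ⟪θ, x - (a / ⟪θ, θ⟫_ℝ) • θ⟫_ℝ = 0
      have hx' : ⟪x, θ⟫_ℝ = a := hx
      rw [inner_sub_right, inner_smul_right, div_mul_cancel₀ _ h0, real_inner_comm, hx', sub_self]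
    · intro hx
      have hx' : ⟪θ, x - (a / ⟪θ, θ⟫_ℝ) • θ⟫_ℝ = 0 := hx
      rw [inner_sub_right, inner_smul_right, div_mul_cancel₀ _ h0, real_inner_comm] at hx'
      show ⟪x, θ⟫_ℝ = a
      linarith
  rw [e1]
  simp only [sub_eq_add_neg]
  rw [measure_preimage_add_right]
  exact hk

theorem VW_ne (h : Adm w) (θ : Eu (Fin n)) (h0 : VW w (fun x => ⟪x, θ⟫_ℝ) = 0) : θ = 0 := by
  by_contra hθ
  rw [VW_eq h] at h0
  set a := EW w fun x => ⟪x, θ⟫_ℝ with ha
  have h1 : ∫ x, (⟪x, θ⟫_ℝ - a) ^ 2 * w x = 0 := by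
    unfold EW at h0
    rcases div_eq_zero_iff.1 h0 with h2 | h2
    · exact h2
    · exact absurd h2 h.pos.ne'
  have hint : Integrable fun x => (⟪x, θ⟫_ℝ - a) ^ 2 * w x := by
    have i1 := int_sq h θ
    have i2 := (int_lin h θ).const_mul (-(2 * a))
    have i3 := h.one.const_mul (a ^ 2)
    refine ((i1.add i2).add i3).congr (Eventually.of_forall fun x => ?_)
    simp only [Pi.add_apply]
    ring
  have h2 := (integral_eq_zero_iff_of_nonneg (fun x => mul_nonneg (sq_nonneg _) (h.nonneg x))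
    hint).1 h1
  have h3 : ∀ᵐ x : Eu (Fin n), ¬ ⟪x, θ⟫_ℝ = a := by
    rw [ae_iff]
    simp only [not_not]
    exact hyp_null θ hθ a
  have h4 : w =ᵐ[volume] 0 := by
    filter_upwards [h2, h3] with x hx hx'
    have hx1 : (⟪x, θ⟫_ℝ - a) ^ 2 * w x = 0 := hx
    rcases mul_eq_zero.1 hx1 with h5 | h5
    · exact absurd (sub_eq_zero.1 (pow_eq_zero_iff (two_ne_zero)|>.1 h5)) hx'
    · exact h5
  have h5 : ∫ x, w x = 0 := by
    rw [integral_congr_ae h4]
    simp
  exact h.pos.ne' h5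

open scoped MatrixOrder in
theorem exists_root (h : Adm w) : ∃ R : Matrix (Fin n) (Fin n) ℝ,
    SS w = R.transpose * R := by
  have h1 : (SS w).PosSemidef := by
    refine Matrix.PosSemidef.of_dotProduct_mulVec_nonneg ?_ fun x => ?_
    · ext i j
      simp only [Matrix.conjTranspose_apply, star_trivial]
      unfold SS
      congr 1
      funext x
      ring
    · have h2 := VW_mat h (WithLp.toLp 2 x)
      have h3 : 0 ≤ VW w (fun y => ⟪y, WithLp.toLp 2 x⟫_ℝ) := by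
        rw [VW_eq h]
        exact EW_nonneg h _ fun _ => sq_nonneg _
      rw [h2] at h3
      simpa using h3
  obtain ⟨R, hR⟩ := CStarAlgebra.nonneg_iff_eq_star_mul_self.mp h1.nonneg
  refine ⟨R, ?_⟩
  rw [hR, Matrix.star_eq_conjTranspose, Matrix.conjTranspose_eq_transpose_of_trivial]

theorem iso : S_ISO := by
  intro n w h
  obtain ⟨R, hR⟩ := exists_root h
  -- the linear map
  let T : Eu (Fin n) →ₗ[ℝ] Eu (Fin n) := Matrix.toEuclideanLin R
  have hT : ∀ θ : Eu (Fin n), ‖T θ‖ ^ 2 = VW w (fun x => ⟪x, θ⟫_ℝ) := by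
    intro θ
    rw [VW_mat h, hR, ← Matrix.mulVec_mulVec, Matrix.dotProduct_mulVec, Matrix.vecMul_transpose]
    rw [EuclideanSpace.norm_sq_eq]
    unfold dotProduct
    refine Finset.sum_congr rfl fun i _ => ?_
    rw [Real.norm_eq_abs, sq_abs, sq]
    rfl
  have hinj : Function.Injective T := by
    rw [← LinearMap.ker_eq_bot, LinearMap.ker_eq_bot']
    intro θ hθ
    apply VW_ne h
    rw [← hT, hθ, norm_zero]
    norm_num
  let e : Eu (Fin n) ≃ₗ[ℝ] Eu (Fin n) := LinearEquiv.ofInjectiveEndo T hinj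
  have he : ∀ θ, e θ = T θ := fun θ => rfl
  let F : Eu (Fin n) →L[ℝ] Eu (Fin n) := LinearMap.toContinuousLinearMap e.toLinearMap
  let G : Eu (Fin n) →L[ℝ] Eu (Fin n) := LinearMap.toContinuousLinearMap e.symm.toLinearMap
  have hFG : ∀ x, F (G x) = x := fun x => e.apply_symm_apply x
  have hGF : ∀ x, G (F x) = x := fun x => e.symm_apply_apply x
  have h1 : Function.LeftInverse (ContinuousLinearMap.adjoint F) (ContinuousLinearMap.adjoint G) := by
    intro x
    refine ext_inner_right ℝ fun y => ?_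
    rw [ContinuousLinearMap.adjoint_inner_left, ContinuousLinearMap.adjoint_inner_left, hGF]
  have h2 : Function.RightInverse (ContinuousLinearMap.adjoint F)
      (ContinuousLinearMap.adjoint G) := by
    intro x
    refine ext_inner_right ℝ fun y => ?_
    rw [ContinuousLinearMap.adjoint_inner_left, ContinuousLinearMap.adjoint_inner_left, hFG]
  refine ⟨ContinuousLinearEquiv.equivOfInverse _ _ h1 h2, fun θ => ?_⟩
  have h3 : (fun x => ⟪(ContinuousLinearEquiv.equivOfInverse _ _ h1 h2 :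
      Eu (Fin n) ≃L[ℝ] Eu (Fin n)) x, θ⟫_ℝ) = fun x => ⟪x, G θ⟫_ℝ := by
    funext x
    show ⟪ContinuousLinearMap.adjoint G x, θ⟫_ℝ = _
    rw [ContinuousLinearMap.adjoint_inner_left]
  rw [h3, ← hT]
  have h4 : T (G θ) = θ := hFG θ
  rw [h4]

end Pool.Agent.Y211.PV
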